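import Mathlib

/-!
# Closed `b^m`-contact manifolds without singular periodic orbits

For every `m ≥ 1` and every `n ≥ 1` there is a closed connected `b^m`-contact manifold of
dimension `2 n + 1` which has no singular periodic orbit.
-/

namespace Pool.Agent.Results.MP_4878e4_gt.NoSingularOrbit

open scoped ContDiff Topology
open Filter

noncomputable section

section General

variable {E G : Type}
    [NormedAddCommGroup E] [NormedSpace ℝ E] [FiniteDimensional ℝ E]
    [NormedAddCommGroup G] [NormedSpace ℝ G] [FiniteDimensional ℝ G]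

/-- The zero set `M = F⁻¹(0)` of the smooth map `F : E → G` is a compact regular level set with
`dim E = d + dim G`, hence a closed manifold of dimension `d`; its tangent space `T_x M` is the
kernel of the derivative of `F` at `x`. -/
structure IsClosedLevel (d : ℕ) (F : E → G) : Prop where
  smooth : ContDiff ℝ ∞ F
  compact : IsCompact {x | F x = 0}
  regular : ∀ x, F x = 0 → Function.Surjective (fderiv ℝ F x)
  dim : Module.finrank ℝ E = d + Module.finrank ℝ G

/-- The restriction to `M = F⁻¹(0)` of the smooth function `ζ` is a defining function of the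
nonempty closed hypersurface `Z = {ζ = 0}` of `M`: its differential on `T_x M` does not vanish for
`x` in `Z`. -/
structure IsDefining (F : E → G) (ζ : E → ℝ) : Prop where
  smooth : ContDiff ℝ ∞ ζ
  nonempty : ∃ x, F x = 0 ∧ ζ x = 0
  regular : ∀ x, F x = 0 → ζ x = 0 → ∃ v, fderiv ℝ F x v = 0 ∧ fderiv ℝ ζ x v ≠ 0

/-- The fibre at `x` of the `b^m`-tangent bundle of `(M, Z)`. It consists of the pairs `(v, c)`
with `v` in the tangent space `T_x M` and `dζ (v) = ζ^m c`. For `x` not in `Z` it is `T_x M`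
(the number `c` is determined by `v`), and its smooth sections `(V, c)` are the vector fields `V`
on `M` with `dζ (V) / ζ^m` smooth, that is, the vector fields tangent to `Z` to order `m`. -/
def bmFibre (m : ℕ) (F : E → G) (ζ : E → ℝ) (x : E) : Set (E × ℝ) :=
  {p | fderiv ℝ F x p.1 = 0 ∧ fderiv ℝ ζ x p.1 = ζ x ^ m * p.2}

/-- The value at `x` of the `b^m`-form `α = f dζ / ζ^m + β` on the element `p = (v, c)` of the
fibre of the `b^m`-tangent bundle; the value of `dζ / ζ^m` on `(v, c)` is `c`. -/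
def bmForm (f : E → ℝ) (β : E → E →L[ℝ] ℝ) (x : E) (p : E × ℝ) : ℝ := f x * p.2 + β x p.1

/-- The value of the `1`-form `df` on `v`, times the value of `dζ / ζ^m` on `(w, c)`. -/
def dfTimes (f : E → ℝ) (x : E) (p q : E × ℝ) : ℝ := fderiv ℝ f x p.1 * q.2

/-- The derivative of the `1`-form `β` in the direction `v`, evaluated on `w`. -/
def dirDeriv (β : E → E →L[ℝ] ℝ) (x v w : E) : ℝ := fderiv ℝ β x v w

/-- The value at `x` of the `b^m`-form `dα = df ∧ dζ / ζ^m + dβ` on the pair `p`, `q` of elements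
of the fibre of the `b^m`-tangent bundle. -/
def bmDForm (f : E → ℝ) (β : E → E →L[ℝ] ℝ) (x : E) (p q : E × ℝ) : ℝ :=
  (dfTimes f x p q - dfTimes f x q p) + (dirDeriv β x p.1 q.1 - dirDeriv β x q.1 p.1)

/-- `α = f dζ / ζ^m + β`, with smooth `f` and `β`, is a `b^m`-contact form on `(M, Z)`: at every
point of `M`, in the fibre of the `b^m`-tangent bundle, `α` is not zero and `dα` is nondegenerate
on the kernel of `α`. -/
structure IsBmContact (m : ℕ) (F : E → G) (ζ : E → ℝ) (f : E → ℝ) (β : E → E →L[ℝ] ℝ) :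
    Prop where
  f_smooth : ContDiff ℝ ∞ f
  β_smooth : ContDiff ℝ ∞ β
  ne_zero : ∀ x, F x = 0 → ∃ p ∈ bmFibre m F ζ x, bmForm f β x p ≠ 0
  nondegenerate : ∀ x, F x = 0 → ∀ u ∈ bmFibre m F ζ x, bmForm f β x u = 0 →
    (∀ v ∈ bmFibre m F ζ x, bmForm f β x v = 0 → bmDForm f β x u v = 0) → u = 0

end General

/-- A closed `b^m`-contact manifold `(M, Z, α)` of dimension `2 n + 1`.

The manifold `M` is given as a compact regular level set `F⁻¹(0)` of a smooth map `F : E → G`
between finite dimensional real vector spaces.  The critical set is the nonempty closed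
hypersurface `Z = {ζ = 0}` of `M` with defining function `ζ`, and the `b^m`-tangent bundle is
the one given by `ζ`.  The `b^m`-contact form is `α = f dζ / ζ^m + β` with a smooth function `f`
and a smooth `1`-form `β`. -/
structure BmContactManifold (m n : ℕ) (E G : Type)
    [NormedAddCommGroup E] [NormedSpace ℝ E] [FiniteDimensional ℝ E]
    [NormedAddCommGroup G] [NormedSpace ℝ G] [FiniteDimensional ℝ G] where
  /-- the defining map of the level set `M` -/
  F : E → G
  closed : IsClosedLevel (2 * n + 1) F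
  /-- the defining function of the critical set `Z` -/
  ζ : E → ℝ
  defining : IsDefining F ζ
  /-- the coefficient of `dζ / ζ^m` in the form `α` -/
  f : E → ℝ
  /-- the smooth part of the form `α` -/
  β : E → E →L[ℝ] ℝ
  contact : IsBmContact m F ζ f β

namespace BmContactManifold

variable {m n : ℕ} {E G : Type}
    [NormedAddCommGroup E] [NormedSpace ℝ E] [FiniteDimensional ℝ E]
    [NormedAddCommGroup G] [NormedSpace ℝ G] [FiniteDimensional ℝ G]
    (M : BmContactManifold m n E G)

/-- The underlying closed manifold `M`, as a subset of `E`. -/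
def carrier : Set E := {x | M.F x = 0}

/-- The critical set `Z`, as a subset of `E`. -/
def critical : Set E := {x | M.F x = 0 ∧ M.ζ x = 0}

/-- `R`, an element of the fibre at `x` of the `b^m`-tangent bundle, is the value at `x` of the
`b^m`-Reeb vector field: `α (R) = 1` and `dα (R, v) = 0` for all `v` in that fibre. -/
def IsReebAt (x : E) (R : E × ℝ) : Prop :=
  R ∈ bmFibre m M.F M.ζ x ∧ bmForm M.f M.β x R = 1 ∧
    ∀ v ∈ bmFibre m M.F M.ζ x, bmDForm M.f M.β x R v = 0

/-- `γ : ℝ → M ∖ Z` is an integral curve of the `b^m`-Reeb vector field both of whose limits, as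
the time tends to `-∞` and to `+∞`, exist and lie in `Z`. -/
structure IsSingularPeriodicOrbit (γ : ℝ → E) : Prop where
  mem : ∀ t, γ t ∈ M.carrier
  notMem : ∀ t, γ t ∉ M.critical
  integral : ∀ t, ∃ R, M.IsReebAt (γ t) R ∧ HasDerivAt γ R.1 t
  limit_bot : ∃ p ∈ M.critical, Tendsto γ atBot (𝓝 p)
  limit_top : ∃ p ∈ M.critical, Tendsto γ atTop (𝓝 p)

end BmContactManifold

/-! ### The example -/

/-- The ambient space, with points `x = (a, b, r, g, h, p)`. -/
abbrev V (n : ℕ) : Type := ℝ × ℝ × ℝ × (Fin n → ℝ) × (Fin n → ℝ) × (Fin n → ℝ)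

/-- The target of the defining map. -/
abbrev W (n : ℕ) : Type := ℝ × (Fin n → ℝ) × ℝ

variable {n : ℕ}

/-- coordinate `a` -/
def xa (x : V n) : ℝ := x.1
/-- coordinate `b` -/
def xb (x : V n) : ℝ := x.2.1
/-- coordinate `r` -/
def xr (x : V n) : ℝ := x.2.2.1
/-- coordinate `g` -/
def xg (x : V n) (i : Fin n) : ℝ := x.2.2.2.1 i
/-- coordinate `h` -/
def xh (x : V n) (i : Fin n) : ℝ := x.2.2.2.2.1 i
/-- coordinate `p` -/
def xp (x : V n) (i : Fin n) : ℝ := x.2.2.2.2.2 i

lemma xa_line (x v : V n) (t : ℝ) : xa (x + t • v) = xa x + t * xa v := rfl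
lemma xb_line (x v : V n) (t : ℝ) : xb (x + t • v) = xb x + t * xb v := rfl
lemma xr_line (x v : V n) (t : ℝ) : xr (x + t • v) = xr x + t * xr v := rfl
lemma xg_line (x v : V n) (t : ℝ) (i : Fin n) : xg (x + t • v) i = xg x i + t * xg v i := rfl
lemma xh_line (x v : V n) (t : ℝ) (i : Fin n) : xh (x + t • v) i = xh x i + t * xh v i := rfl
lemma xp_line (x v : V n) (t : ℝ) (i : Fin n) : xp (x + t • v) i = xp x i + t * xp v i := rfl

lemma ext_V {x y : V n} (ha : xa x = xa y) (hb : xb x = xb y) (hr : xr x = xr y)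
    (hg : ∀ i, xg x i = xg y i) (hh : ∀ i, xh x i = xh y i) (hp : ∀ i, xp x i = xp y i) :
    x = y :=
  Prod.ext ha (Prod.ext hb (Prod.ext hr (Prod.ext (funext hg) (Prod.ext (funext hh)
    (funext hp)))))

/-- The defining map: its zero set is `S¹ × T^n × S^n`. -/
def defF (x : V n) : W n :=
  (xa x * xa x + xb x * xb x - 1, fun i => xg x i * xg x i + xh x i * xh x i - 1,
    xr x * xr x + ∑ i, xp x i * xp x i - 1)

/-- The vector of the shift: its length is `1 / 4`. -/
def cc (n : ℕ) (i : Fin n) : ℝ := if (i : ℕ) = 0 then 1 / 4 else 0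

/-- The smooth part of the form, evaluated on a tangent vector. -/
def betaFun (m : ℕ) (x v : V n) : ℝ :=
  xr x * xb x ^ m * (xa x * xb v - xb x * xa v) +
    ∑ i, (xp x i - cc n i * xa x) * (xg x i * xh v i - xh x i * xg v i)

/-- the coordinate functional `a` -/
def La (n : ℕ) : V n →L[ℝ] ℝ := ContinuousLinearMap.fst ℝ _ _
/-- the coordinate functional `b` -/
def Lb (n : ℕ) : V n →L[ℝ] ℝ := (ContinuousLinearMap.fst ℝ _ _).comp (ContinuousLinearMap.snd ℝ _ _)
/-- the coordinate functional `g i` -/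
def Lg (n : ℕ) (i : Fin n) : V n →L[ℝ] ℝ :=
  (ContinuousLinearMap.proj i).comp ((ContinuousLinearMap.fst ℝ _ _).comp
    ((ContinuousLinearMap.snd ℝ _ _).comp ((ContinuousLinearMap.snd ℝ _ _).comp
      (ContinuousLinearMap.snd ℝ _ _))))
/-- the coordinate functional `h i` -/
def Lh (n : ℕ) (i : Fin n) : V n →L[ℝ] ℝ :=
  (ContinuousLinearMap.proj i).comp ((ContinuousLinearMap.fst ℝ _ _).comp
    ((ContinuousLinearMap.snd ℝ _ _).comp ((ContinuousLinearMap.snd ℝ _ _).comp
    ((ContinuousLinearMap.snd ℝ _ _).comp (ContinuousLinearMap.snd ℝ _ _)))))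

lemma La_apply (v : V n) : La n v = xa v := rfl
lemma Lb_apply (v : V n) : Lb n v = xb v := rfl
lemma Lg_apply (i : Fin n) (v : V n) : Lg n i v = xg v i := rfl
lemma Lh_apply (i : Fin n) (v : V n) : Lh n i v = xh v i := rfl

/-- The smooth part of the form. -/
def beta (m : ℕ) (x : V n) : V n →L[ℝ] ℝ :=
  (xr x * xb x ^ m) • (xa x • Lb n - xb x • La n) +
    ∑ i, (xp x i - cc n i * xa x) • (xg x i • Lh n i - xh x i • Lg n i)

lemma beta_apply (m : ℕ) (x v : V n) : beta m x v = betaFun m x v := by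
  simp [beta, betaFun, La_apply, Lb_apply, Lg_apply, Lh_apply]

lemma contDiff_defF : ContDiff ℝ ∞ (defF : V n → W n) := by
  unfold defF xa xb xr xg xh xp
  fun_prop

lemma contDiff_beta (m : ℕ) : ContDiff ℝ ∞ (beta m : V n → V n →L[ℝ] ℝ) := by
  unfold beta xa xb xr xg xh xp
  fun_prop

lemma hasDerivAt_quad (a b c : ℝ) : HasDerivAt (fun t : ℝ => a + t * b + t ^ 2 * c) b 0 := by
  have h0 : HasDerivAt (fun t : ℝ => t) 1 (0 : ℝ) := hasDerivAt_id _
  have h1 := ((h0.mul_const b).const_add a).fun_add ((h0.fun_pow 2).mul_const c)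
  simpa using h1

lemma fderiv_defF (x v : V n) : fderiv ℝ defF x v =
    (2 * (xa x * xa v + xb x * xb v), fun i => 2 * (xg x i * xg v i + xh x i * xh v i),
      2 * (xr x * xr v + ∑ i, xp x i * xp v i)) := by
  have hd : DifferentiableAt ℝ (defF : V n → W n) x :=
    contDiff_defF.differentiable (by simp) x
  rw [← hd.lineDeriv_eq_fderiv]
  have key : (fun t : ℝ => defF (x + t • v)) = fun t : ℝ =>
      ((xa x * xa x + xb x * xb x - 1) + t * (2 * (xa x * xa v + xb x * xb v)) +
        t ^ 2 * (xa v * xa v + xb v * xb v),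
       (fun i => (xg x i * xg x i + xh x i * xh x i - 1) +
        t * (2 * (xg x i * xg v i + xh x i * xh v i)) +
        t ^ 2 * (xg v i * xg v i + xh v i * xh v i)),
       (xr x * xr x + ∑ i, xp x i * xp x i - 1) + t * (2 * (xr x * xr v + ∑ i, xp x i * xp v i)) +
        t ^ 2 * (xr v * xr v + ∑ i, xp v i * xp v i)) := by
    funext t
    unfold defF
    refine Prod.ext ?_ (Prod.ext ?_ ?_)
    · simp only [xa_line, xb_line]
      ring
    · funext i
      simp only [xg_line, xh_line]
      ring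
    · simp only [xr_line, xp_line]
      have : ∑ i, (xp x i + t * xp v i) * (xp x i + t * xp v i) =
          ∑ i, xp x i * xp x i + t * (2 * ∑ i, xp x i * xp v i) + t ^ 2 * ∑ i, xp v i * xp v i := by
        rw [Finset.mul_sum, Finset.mul_sum, Finset.mul_sum, ← Finset.sum_add_distrib,
          ← Finset.sum_add_distrib]
        exact Finset.sum_congr rfl fun i _ => by ring
      rw [this]
      ring
  unfold lineDeriv
  rw [key]
  exact ((hasDerivAt_quad _ _ _).prodMk ((hasDerivAt_pi.2 fun i => hasDerivAt_quad _ _ _).prodMk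
    (hasDerivAt_quad _ _ _))).deriv

lemma fderiv_defF_eq_zero {x v : V n} : fderiv ℝ defF x v = 0 ↔
    (xa x * xa v + xb x * xb v = 0 ∧ (∀ i, xg x i * xg v i + xh x i * xh v i = 0) ∧
      xr x * xr v + ∑ i, xp x i * xp v i = 0) := by
  rw [fderiv_defF, Prod.mk_eq_zero, Prod.mk_eq_zero, funext_iff]
  simp

lemma defF_eq_zero {x : V n} : defF x = 0 ↔
    (xa x * xa x + xb x * xb x = 1 ∧ (∀ i, xg x i * xg x i + xh x i * xh x i = 1) ∧
      xr x * xr x + ∑ i, xp x i * xp x i = 1) := by
  unfold defF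
  rw [Prod.mk_eq_zero, Prod.mk_eq_zero, funext_iff]
  simp [sub_eq_zero]

lemma fderiv_xb (x v : V n) : fderiv ℝ (xb : V n → ℝ) x v = xb v := by
  have : (xb : V n → ℝ) = Lb n := rfl
  rw [this, ContinuousLinearMap.fderiv]

/-- the coefficient of `dζ / ζ^m` -/
def coefF (x : V n) : ℝ := xr x * xa x

lemma contDiff_coefF : ContDiff ℝ ∞ (coefF : V n → ℝ) := by
  unfold coefF xa xr
  fun_prop

lemma fderiv_coefF (x v : V n) : fderiv ℝ (coefF : V n → ℝ) x v = xr v * xa x + xr x * xa v := by
  have hd : DifferentiableAt ℝ (coefF : V n → ℝ) x :=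
    contDiff_coefF.differentiable (by simp) x
  rw [← hd.lineDeriv_eq_fderiv]
  have key : (fun t : ℝ => coefF (x + t • v)) = fun t : ℝ =>
      xr x * xa x + t * (xr v * xa x + xr x * xa v) + t ^ 2 * (xr v * xa v) := by
    funext t
    simp only [coefF, xr_line, xa_line]
    ring
  unfold lineDeriv
  rw [key]
  exact (hasDerivAt_quad _ _ _).deriv

lemma fderiv_beta (m : ℕ) (x u v : V n) : fderiv ℝ (beta m : V n → V n →L[ℝ] ℝ) x u v =
    (xr u * xb x ^ m + xr x * (m * xb x ^ (m - 1) * xb u)) * (xa x * xb v - xb x * xa v) +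
    xr x * xb x ^ m * (xa u * xb v - xb u * xa v) +
    ∑ i, ((xp u i - cc n i * xa u) * (xg x i * xh v i - xh x i * xg v i) +
      (xp x i - cc n i * xa x) * (xg u i * xh v i - xh u i * xg v i)) := by
  have hd : DifferentiableAt ℝ (beta m : V n → V n →L[ℝ] ℝ) x :=
    (contDiff_beta m).differentiable (by simp) x
  have h1 : HasDerivAt (fun t : ℝ => beta m (x + t • u)) (fderiv ℝ (beta m) x u) 0 := by
    have := hd.hasFDerivAt.hasLineDerivAt u
    exact this
  have h2 : HasDerivAt (fun t : ℝ => beta m (x + t • u) v) (fderiv ℝ (beta m) x u v) 0 := by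
    have := (ContinuousLinearMap.apply ℝ ℝ v).hasFDerivAt.comp_hasDerivAt (0 : ℝ) h1
    exact this
  refine h2.unique ?_
  have e : (fun t : ℝ => beta m (x + t • u) v) = fun t : ℝ =>
      (xr x + t * xr u) * (xb x + t * xb u) ^ m *
        ((xa x + t * xa u) * xb v - (xb x + t * xb u) * xa v) +
      ∑ i, ((xp x i + t * xp u i) - cc n i * (xa x + t * xa u)) *
        ((xg x i + t * xg u i) * xh v i - (xh x i + t * xh u i) * xg v i) := by
    funext t
    rw [beta_apply]
    rfl
  rw [e]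
  have l : ∀ a b : ℝ, HasDerivAt (fun t : ℝ => a + t * b) b 0 := by
    intro a b
    simpa using ((hasDerivAt_id (0 : ℝ)).mul_const b).const_add a
  have p1 := ((l (xr x) (xr u)).fun_mul ((l (xb x) (xb u)).fun_pow m)).fun_mul
    (((l (xa x) (xa u)).mul_const (xb v)).fun_sub ((l (xb x) (xb u)).mul_const (xa v)))
  have p2 : ∀ i ∈ Finset.univ, HasDerivAt (fun t : ℝ =>
      ((xp x i + t * xp u i) - cc n i * (xa x + t * xa u)) *
        ((xg x i + t * xg u i) * xh v i - (xh x i + t * xh u i) * xg v i)) _ 0 := fun i _ =>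
    ((l (xp x i) (xp u i)).fun_sub ((l (xa x) (xa u)).const_mul (cc n i))).fun_mul
      (((l (xg x i) (xg u i)).mul_const (xh v i)).fun_sub
        ((l (xh x i) (xh u i)).mul_const (xg v i)))
  have p3 := p1.fun_add (HasDerivAt.fun_sum p2)
  refine p3.congr_deriv ?_
  simp only [zero_mul, add_zero]

/-- angular component in the first circle -/
def A0 (x v : V n) : ℝ := xa x * xb v - xb x * xa v

/-- angular components in the other circles -/
def Ai (x v : V n) (i : Fin n) : ℝ := xg x i * xh v i - xh x i * xg v i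

/-- component of `(v, c)` -/
def Lam (m : ℕ) (x : V n) (p : V n × ℝ) : ℝ := xa x * p.2 + xb x ^ m * A0 x p.1

/-- the density of the one-form on the first circle -/
def Th (m : ℕ) (x : V n) : ℝ := xa x ^ 2 + (xb x ^ m) ^ 2

/-- tangency conditions -/
structure Tan (m : ℕ) (x : V n) (p : V n × ℝ) : Prop where
  h1 : xa x * xa p.1 + xb x * xb p.1 = 0
  h2 : ∀ i, xg x i * xg p.1 i + xh x i * xh p.1 i = 0
  h3 : xr x * xr p.1 + ∑ i, xp x i * xp p.1 i = 0
  h4 : xb p.1 = xb x ^ m * p.2

/-- value of `α` -/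
def alphaV (m : ℕ) (x : V n) (p : V n × ℝ) : ℝ := coefF x * p.2 + beta m x p.1

/-- value of `dα` -/
def dalphaV (m : ℕ) (x : V n) (p q : V n × ℝ) : ℝ :=
  fderiv ℝ (coefF : V n → ℝ) x p.1 * q.2 - fderiv ℝ (coefF : V n → ℝ) x q.1 * p.2 +
    (fderiv ℝ (beta m : V n → V n →L[ℝ] ℝ) x p.1 q.1 -
      fderiv ℝ (beta m : V n → V n →L[ℝ] ℝ) x q.1 p.1)

lemma alphaV_eq (m : ℕ) (x : V n) (p : V n × ℝ) : alphaV m x p =
    xr x * Lam m x p + ∑ i, (xp x i - cc n i * xa x) * Ai x p.1 i := by
  rw [alphaV, beta_apply, betaFun, coefF, Lam, A0]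
  unfold Ai
  ring

lemma tan_a {m : ℕ} {x : V n} (hx : defF x = 0) {p : V n × ℝ} (hp : Tan m x p) :
    xa p.1 = - xb x * A0 x p.1 := by
  obtain ⟨e1, -, -⟩ := defF_eq_zero.1 hx
  unfold A0
  linear_combination (-xa p.1) * e1 + xa x * hp.h1

lemma tan_b {m : ℕ} {x : V n} (hx : defF x = 0) {p : V n × ℝ} (hp : Tan m x p) :
    xb p.1 = xa x * A0 x p.1 := by
  obtain ⟨e1, -, -⟩ := defF_eq_zero.1 hx
  unfold A0
  linear_combination (-xb p.1) * e1 + xb x * hp.h1

lemma tan_g {m : ℕ} {x : V n} (hx : defF x = 0) {p : V n × ℝ} (hp : Tan m x p) (i : Fin n) :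
    xg p.1 i = - xh x i * Ai x p.1 i := by
  obtain ⟨-, e2, -⟩ := defF_eq_zero.1 hx
  unfold Ai
  linear_combination (-xg p.1 i) * e2 i + xg x i * hp.h2 i

lemma tan_h {m : ℕ} {x : V n} (hx : defF x = 0) {p : V n × ℝ} (hp : Tan m x p) (i : Fin n) :
    xh p.1 i = xg x i * Ai x p.1 i := by
  obtain ⟨-, e2, -⟩ := defF_eq_zero.1 hx
  unfold Ai
  linear_combination (-xh p.1 i) * e2 i + xh x i * hp.h2 i

lemma Th_pos {m : ℕ} {x : V n} (hx : defF x = 0) : 0 < Th m x := by
  obtain ⟨e1, -, -⟩ := defF_eq_zero.1 hx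
  unfold Th
  by_cases hb : xb x = 0
  · rw [hb] at e1
    have : 0 < xa x ^ 2 := by nlinarith
    positivity
  · have : 0 < (xb x ^ m) ^ 2 := by positivity
    positivity

/-- `Th * c = a * Lam` -/
lemma tan_c {m : ℕ} {x : V n} (hx : defF x = 0) {p : V n × ℝ} (hp : Tan m x p) :
    Th m x * p.2 = xa x * Lam m x p := by
  have h1 := tan_b hx hp
  have h4 := hp.h4
  unfold Th Lam
  linear_combination (xb x ^ m) * (h1 - h4)

/-- `Th * A0 = b ^ m * Lam` -/
lemma tan_A {m : ℕ} {x : V n} (hx : defF x = 0) {p : V n × ℝ} (hp : Tan m x p) :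
    Th m x * A0 x p.1 = xb x ^ m * Lam m x p := by
  have h1 := tan_b hx hp
  have h4 := hp.h4
  unfold Th Lam
  linear_combination (xa x) * (h4 - h1)

lemma dalphaV_eq {m : ℕ} {x : V n} (hx : defF x = 0) {p q : V n × ℝ} (hp : Tan m x p)
    (hq : Tan m x q) : dalphaV m x p q =
    xr p.1 * Lam m x q - xr q.1 * Lam m x p +
      ∑ i, ((xp p.1 i + cc n i * xb x * A0 x p.1) * Ai x q.1 i -
        (xp q.1 i + cc n i * xb x * A0 x q.1) * Ai x p.1 i) := by
  have e1 : A0 x p.1 * q.2 = A0 x q.1 * p.2 := by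
    have hT := Th_pos (m := m) hx
    have h1 := tan_A hx hp
    have h2 := tan_A hx hq
    have h3 := tan_c hx hp
    have h4 := tan_c hx hq
    have : (Th m x * A0 x p.1) * (Th m x * q.2) = (Th m x * A0 x q.1) * (Th m x * p.2) := by
      rw [h1, h2, h3, h4]; ring
    have h5 : (Th m x * Th m x) * (A0 x p.1 * q.2 - A0 x q.1 * p.2) = 0 := by
      linear_combination this
    rcases mul_eq_zero.1 h5 with h6 | h6
    · exact absurd h6 (by positivity)
    · linarith
  have hs : ∑ i, ((xp p.1 i - cc n i * xa p.1) * (xg x i * xh q.1 i - xh x i * xg q.1 i) +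
      (xp x i - cc n i * xa x) * (xg p.1 i * xh q.1 i - xh p.1 i * xg q.1 i)) -
      ∑ i, ((xp q.1 i - cc n i * xa q.1) * (xg x i * xh p.1 i - xh x i * xg p.1 i) +
      (xp x i - cc n i * xa x) * (xg q.1 i * xh p.1 i - xh q.1 i * xg p.1 i)) =
      ∑ i, ((xp p.1 i + cc n i * xb x * A0 x p.1) * Ai x q.1 i -
        (xp q.1 i + cc n i * xb x * A0 x q.1) * Ai x p.1 i) := by
    rw [← Finset.sum_sub_distrib]
    refine Finset.sum_congr rfl fun i _ => ?_
    have k1 := tan_a hx hp
    have k2 := tan_a hx hq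
    have k3 : xg p.1 i * xh q.1 i - xh p.1 i * xg q.1 i = 0 := by
      rw [tan_g hx hp i, tan_h hx hq i, tan_h hx hp i, tan_g hx hq i]; ring
    rw [k1, k2]
    unfold Ai
    linear_combination 2 * (xp x i - cc n i * xa x) * k3
  have k4 : xa p.1 * xb q.1 - xb p.1 * xa q.1 = 0 := by
    rw [tan_a hx hp, tan_b hx hq, tan_b hx hp, tan_a hx hq]; ring
  have k5 : xb p.1 * A0 x q.1 - xb q.1 * A0 x p.1 = 0 := by
    rw [tan_b hx hp, tan_b hx hq]; ring
  have k6 : xa p.1 * q.2 - xa q.1 * p.2 = 0 := by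
    rw [tan_a hx hp, tan_a hx hq]; linear_combination (-xb x) * e1
  unfold dalphaV
  rw [fderiv_coefF, fderiv_coefF, fderiv_beta, fderiv_beta, ← hs]
  unfold Lam
  unfold A0 at *
  linear_combination xr x * k6 + 2 * xr x * xb x ^ m * k4 + xr x * (m * xb x ^ (m - 1)) * k5

/-- `∑ c_i p_i` -/
def Sc (x : V n) : ℝ := ∑ i, cc n i * xp x i

/-- A vector spanning the Reeb direction. -/
def XX (m : ℕ) (x : V n) : V n × ℝ :=
  ((- xb x * (xb x ^ m * xr x / Th m x), xa x * (xb x ^ m * xr x / Th m x),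
    xb x * xb x ^ m * Sc x / Th m x, fun i => - xh x i * xp x i, fun i => xg x i * xp x i,
    fun i => - cc n i * xb x * (xb x ^ m * xr x / Th m x)), xa x * xr x / Th m x)

/-- The value of `α` on it. -/
def DD (x : V n) : ℝ := 1 - xa x * Sc x

lemma A0_XX {m : ℕ} {x : V n} (hx : defF x = 0) : A0 x (XX m x).1 = xb x ^ m * xr x / Th m x := by
  obtain ⟨e1, -, -⟩ := defF_eq_zero.1 hx
  have : A0 x (XX m x).1 = xa x * (xa x * (xb x ^ m * xr x / Th m x)) -
    xb x * (- xb x * (xb x ^ m * xr x / Th m x)) := rfl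
  rw [this]
  linear_combination (xb x ^ m * xr x / Th m x) * e1

lemma Ai_XX {m : ℕ} {x : V n} (hx : defF x = 0) (i : Fin n) : Ai x (XX m x).1 i = xp x i := by
  obtain ⟨-, e2, -⟩ := defF_eq_zero.1 hx
  have : Ai x (XX m x).1 i = xg x i * (xg x i * xp x i) - xh x i * (- xh x i * xp x i) := rfl
  rw [this]
  linear_combination (xp x i) * e2 i

lemma Lam_XX {m : ℕ} {x : V n} (hx : defF x = 0) : Lam m x (XX m x) = xr x := by
  have hT := (Th_pos (m := m) hx).ne'
  rw [Lam, A0_XX hx]
  have : (XX m x).2 = xa x * xr x / Th m x := rfl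
  rw [this]
  field_simp
  unfold Th
  ring

lemma Tan_XX {m : ℕ} {x : V n} (hx : defF x = 0) : Tan m x (XX m x) where
  h1 := by
    change xa x * (- xb x * (xb x ^ m * xr x / Th m x)) +
      xb x * (xa x * (xb x ^ m * xr x / Th m x)) = 0
    ring
  h2 := fun i => by
    change xg x i * (- xh x i * xp x i) + xh x i * (xg x i * xp x i) = 0
    ring
  h3 := by
    change xr x * (xb x * xb x ^ m * Sc x / Th m x) +
      ∑ i, xp x i * (- cc n i * xb x * (xb x ^ m * xr x / Th m x)) = 0
    have : ∑ i, xp x i * (- cc n i * xb x * (xb x ^ m * xr x / Th m x)) =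
        - (xb x * (xb x ^ m * xr x / Th m x)) * Sc x := by
      rw [Sc, Finset.mul_sum]
      exact Finset.sum_congr rfl fun i _ => by ring
    rw [this]
    ring
  h4 := by
    change xa x * (xb x ^ m * xr x / Th m x) = xb x ^ m * (xa x * xr x / Th m x)
    ring

lemma alpha_XX {m : ℕ} {x : V n} (hx : defF x = 0) : alphaV m x (XX m x) = DD x := by
  obtain ⟨-, -, e3⟩ := defF_eq_zero.1 hx
  rw [alphaV_eq, Lam_XX hx, DD]
  have : ∑ i, (xp x i - cc n i * xa x) * Ai x (XX m x).1 i =
      ∑ i, xp x i * xp x i - xa x * Sc x := by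
    rw [Sc, Finset.mul_sum, ← Finset.sum_sub_distrib]
    refine Finset.sum_congr rfl fun i _ => ?_
    rw [Ai_XX hx]; ring
  rw [this]
  linear_combination e3

lemma dalpha_XX {m : ℕ} {x : V n} (hx : defF x = 0) {q : V n × ℝ} (hq : Tan m x q) :
    dalphaV m x (XX m x) q = 0 := by
  have hT := (Th_pos (m := m) hx).ne'
  rw [dalphaV_eq hx (Tan_XX hx) hq, Lam_XX hx]
  have e1 : ∀ i, (xp (XX m x).1 i + cc n i * xb x * A0 x (XX m x).1) = 0 := by
    intro i
    rw [A0_XX hx]
    change - cc n i * xb x * (xb x ^ m * xr x / Th m x) +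
      cc n i * xb x * (xb x ^ m * xr x / Th m x) = 0
    ring
  have e2 : ∑ i, ((xp (XX m x).1 i + cc n i * xb x * A0 x (XX m x).1) * Ai x q.1 i -
      (xp q.1 i + cc n i * xb x * A0 x q.1) * Ai x (XX m x).1 i) =
      - ∑ i, xp x i * xp q.1 i - xb x * A0 x q.1 * Sc x := by
    rw [Sc, Finset.mul_sum, ← Finset.sum_neg_distrib, ← Finset.sum_sub_distrib]
    refine Finset.sum_congr rfl fun i _ => ?_
    rw [e1, Ai_XX hx]; ring
  rw [e2]
  have e3 : xr (XX m x).1 = xb x * xb x ^ m * Sc x / Th m x := rfl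
  have e4 := tan_A hx hq
  rw [e3]
  have e5 : xb x * xb x ^ m * Sc x / Th m x * Lam m x q = xb x * A0 x q.1 * Sc x := by
    rw [div_mul_eq_mul_div, div_eq_iff hT]
    linear_combination (- xb x * Sc x) * e4
  rw [e5]
  linear_combination (-1 : ℝ) * hq.h3

lemma abs_xa_le {x : V n} (hx : defF x = 0) : |xa x| ≤ 1 := by
  obtain ⟨e1, -, -⟩ := defF_eq_zero.1 hx
  rw [abs_le]
  constructor <;> nlinarith [sq_nonneg (xb x)]

lemma cc_sum {n : ℕ} (hn : 1 ≤ n) (φ : Fin n → ℝ) : ∑ i, cc n i * φ i = φ ⟨0, hn⟩ / 4 := by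
  rw [Finset.sum_eq_single ⟨0, hn⟩]
  · unfold cc
    simp
    ring
  · intro b _ hb
    have : (b : ℕ) ≠ 0 := fun h => hb (Fin.ext h)
    simp [cc, this]
  · simp

lemma p_sq_le {x : V n} (hx : defF x = 0) (i : Fin n) : xp x i * xp x i ≤ 1 := by
  obtain ⟨-, -, e3⟩ := defF_eq_zero.1 hx
  have h1 : xp x i * xp x i ≤ ∑ i, xp x i * xp x i :=
    Finset.single_le_sum (f := fun i => xp x i * xp x i)
      (fun i _ => mul_self_nonneg (xp x i)) (Finset.mem_univ i)
  nlinarith [mul_self_nonneg (xr x)]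

lemma DD_pos (hn : 1 ≤ n) {x : V n} (hx : defF x = 0) : 0 < DD x := by
  have h1 := abs_xa_le hx
  have h2 := p_sq_le hx ⟨0, hn⟩
  rw [DD, Sc, cc_sum hn]
  rw [abs_le] at h1
  have h3 : |xp x ⟨0, hn⟩| ≤ 1 := by
    rw [abs_le]
    constructor <;> nlinarith
  rw [abs_le] at h3
  nlinarith

lemma dalphaV_smul_add {m : ℕ} (x : V n) (p q q' : V n × ℝ) (t : ℝ) :
    dalphaV m x p (q + t • q') = dalphaV m x p q + t * dalphaV m x p q' := by
  unfold dalphaV
  simp only [Prod.snd_add, Prod.fst_add, Prod.smul_snd, Prod.smul_fst, map_add, map_smul,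
    _root_.add_apply, _root_.smul_apply, smul_eq_mul]
  ring

lemma dalphaV_antisymm {m : ℕ} (x : V n) (p q : V n × ℝ) :
    dalphaV m x p q = - dalphaV m x q p := by
  unfold dalphaV
  ring

lemma alphaV_smul_add {m : ℕ} (x : V n) (q q' : V n × ℝ) (t : ℝ) :
    alphaV m x (q + t • q') = alphaV m x q + t * alphaV m x q' := by
  unfold alphaV
  simp only [Prod.snd_add, Prod.fst_add, Prod.smul_snd, Prod.smul_fst, map_add, map_smul,
    smul_eq_mul]
  ring

lemma Tan_smul_add {m : ℕ} {x : V n} {q q' : V n × ℝ} (hq : Tan m x q) (hq' : Tan m x q')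
    (t : ℝ) : Tan m x (q + t • q') where
  h1 := by
    change xa x * (xa (q.1 + t • q'.1)) + xb x * (xb (q.1 + t • q'.1)) = 0
    rw [xa_line, xb_line]
    linear_combination hq.h1 + t * hq'.h1
  h2 := fun i => by
    change xg x i * (xg (q.1 + t • q'.1) i) + xh x i * (xh (q.1 + t • q'.1) i) = 0
    rw [xg_line, xh_line]
    linear_combination hq.h2 i + t * hq'.h2 i
  h3 := by
    change xr x * (xr (q.1 + t • q'.1)) + ∑ i, xp x i * (xp (q.1 + t • q'.1) i) = 0
    have : ∑ i, xp x i * (xp (q.1 + t • q'.1) i) =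
        ∑ i, xp x i * xp q.1 i + t * ∑ i, xp x i * xp q'.1 i := by
      rw [Finset.mul_sum, ← Finset.sum_add_distrib]
      refine Finset.sum_congr rfl fun i _ => ?_
      rw [xp_line]; ring
    rw [this, xr_line]
    linear_combination hq.h3 + t * hq'.h3
  h4 := by
    change xb (q.1 + t • q'.1) = xb x ^ m * (q.2 + t * q'.2)
    rw [xb_line]
    linear_combination hq.h4 + t * hq'.h4

/-- If `dα (p, ·)` vanishes on the kernel of `α` then it vanishes. -/
lemma dalpha_all (hn : 1 ≤ n) {m : ℕ} {x : V n} (hx : defF x = 0) {p : V n × ℝ}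
    (hp : Tan m x p)
    (h : ∀ q, Tan m x q → alphaV m x q = 0 → dalphaV m x p q = 0) (q : V n × ℝ)
    (hq : Tan m x q) : dalphaV m x p q = 0 := by
  have hD := (DD_pos hn hx).ne'
  have h1 := h (q + (-(alphaV m x q / DD x)) • XX m x) (Tan_smul_add hq (Tan_XX hx) _) (by
    rw [alphaV_smul_add, alpha_XX hx]
    field_simp
    ring)
  rw [dalphaV_smul_add, dalphaV_antisymm x p (XX m x), dalpha_XX hx hp] at h1
  simpa using h1

/-- The kernel of `dα` is spanned by `XX`. -/
lemma ker_dalpha (hn : 1 ≤ n) {m : ℕ} {x : V n} (hx : defF x = 0) {p : V n × ℝ}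
    (hp : Tan m x p) (h : ∀ q, Tan m x q → dalphaV m x p q = 0) :
    p = (alphaV m x p / DD x) • XX m x := by
  have hT := (Th_pos (m := m) hx)
  have hD := (DD_pos hn hx).ne'
  obtain ⟨e1, e2, e3⟩ := defF_eq_zero.1 hx
  -- test with the rotations of the circles
  have t1 : ∀ i, xp p.1 i + cc n i * xb x * A0 x p.1 = 0 := by
    intro j
    have hq : Tan m x ((0, 0, 0, Pi.single j (- xh x j), Pi.single j (xg x j), 0), 0) := by
      refine ⟨?_, ?_, ?_, ?_⟩
      · simp [xa, xb]
      · intro i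
        by_cases hij : i = j
        · subst hij
          simp [xg, xh]
          ring
        · simp [xg, xh, hij]
      · simp [xr, xp]
      · simp [xb]
    have h1 := h _ hq
    rw [dalphaV_eq hx hp hq] at h1
    have a1 : ∀ i, Ai x ((0, 0, 0, Pi.single j (- xh x j), Pi.single j (xg x j), 0) : V n) i =
        if i = j then 1 else 0 := by
      intro i
      by_cases hij : i = j
      · subst hij
        simp only [Ai, xg, xh, Pi.single_eq_same, if_true]
        have := e2 i
        simp only [xg, xh] at this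
        linear_combination this
      · simp [Ai, xg, xh, hij]
    have a2 : A0 x ((0, 0, 0, Pi.single j (- xh x j), Pi.single j (xg x j), 0) : V n) = 0 := by
      simp [A0, xa, xb]
    simp only [a1, a2] at h1
    simpa [Lam, a2, xr, xp] using h1
  -- test with the generator of the normal direction
  have t2 : xr p.1 * Th m x = xb x * xb x ^ m * ∑ i, cc n i * Ai x p.1 i := by
    have a2 : A0 x ((- xb x * xb x ^ m, xa x * xb x ^ m, 0, 0, 0, 0) : V n) = xb x ^ m := by
      change xa x * (xa x * xb x ^ m) - xb x * (- xb x * xb x ^ m) = xb x ^ m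
      linear_combination (xb x ^ m) * e1
    have a1 : ∀ i, Ai x ((- xb x * xb x ^ m, xa x * xb x ^ m, 0, 0, 0, 0) : V n) i = 0 := by
      intro i
      change xg x i * 0 - xh x i * 0 = 0
      ring
    have a3 : Lam m x ((- xb x * xb x ^ m, xa x * xb x ^ m, 0, 0, 0, 0), xa x) = Th m x := by
      rw [Lam, a2, Th]
      ring
    have hq : Tan m x ((- xb x * xb x ^ m, xa x * xb x ^ m, 0, 0, 0, 0), xa x) := by
      refine ⟨?_, ?_, ?_, ?_⟩
      · change xa x * (- xb x * xb x ^ m) + xb x * (xa x * xb x ^ m) = 0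
        ring
      · intro i
        change xg x i * 0 + xh x i * 0 = 0
        ring
      · change xr x * 0 + ∑ i, xp x i * 0 = 0
        simp
      · change xa x * xb x ^ m = xb x ^ m * xa x
        ring
    have h1 := h _ hq
    rw [dalphaV_eq hx hp hq, a3] at h1
    simp only [a1, a2] at h1
    have a4 : xr ((- xb x * xb x ^ m, xa x * xb x ^ m, 0, 0, 0, 0) : V n) = 0 := rfl
    have a5 : ∀ i, xp ((- xb x * xb x ^ m, xa x * xb x ^ m, 0, 0, 0, 0) : V n) i = 0 :=
      fun i => rfl
    rw [a4] at h1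
    simp only [a5] at h1
    have a6 : ∑ i, ((xp p.1 i + cc n i * xb x * A0 x p.1) * 0 -
        (0 + cc n i * xb x * xb x ^ m) * Ai x p.1 i) =
        - (xb x * xb x ^ m * ∑ i, cc n i * Ai x p.1 i) := by
      rw [Finset.mul_sum, ← Finset.sum_neg_distrib]
      exact Finset.sum_congr rfl fun i _ => by ring
    rw [a6] at h1
    linear_combination h1
  -- test with the tangent vectors of the sphere
  set l : ℝ := xr x * Lam m x p + ∑ i, xp x i * Ai x p.1 i with hl
  have t3 : (Lam m x p - l * xr x) * (Lam m x p - l * xr x) +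
      ∑ i, (Ai x p.1 i - l * xp x i) * (Ai x p.1 i - l * xp x i) = 0 := by
    have s1 : ∑ i, xp x i * (Ai x p.1 i - l * xp x i) =
        ∑ i, xp x i * Ai x p.1 i - l * ∑ i, xp x i * xp x i := by
      rw [Finset.mul_sum, ← Finset.sum_sub_distrib]
      exact Finset.sum_congr rfl fun i _ => by ring
    have hq : Tan m x ((0, 0, Lam m x p - l * xr x, 0, 0, fun i => Ai x p.1 i - l * xp x i), 0) := by
      refine ⟨?_, ?_, ?_, ?_⟩
      · change xa x * 0 + xb x * 0 = 0
        ring
      · intro i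
        change xg x i * 0 + xh x i * 0 = 0
        ring
      · change xr x * (Lam m x p - l * xr x) + ∑ i, xp x i * (Ai x p.1 i - l * xp x i) = 0
        rw [s1]
        linear_combination (-1 : ℝ) * hl - l * e3
      · change (0 : ℝ) = xb x ^ m * 0
        ring
    have h1 := h _ hq
    rw [dalphaV_eq hx hp hq] at h1
    have a2 : A0 x ((0, 0, Lam m x p - l * xr x, 0, 0, fun i => Ai x p.1 i - l * xp x i) : V n)
        = 0 := by
      change xa x * 0 - xb x * 0 = 0
      ring
    have a1 : ∀ i, Ai x ((0, 0, Lam m x p - l * xr x, 0, 0,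
        fun i => Ai x p.1 i - l * xp x i) : V n) i = 0 := by
      intro i
      change xg x i * 0 - xh x i * 0 = 0
      ring
    have a3 : Lam m x ((0, 0, Lam m x p - l * xr x, 0, 0,
        fun i => Ai x p.1 i - l * xp x i), 0) = 0 := by
      rw [Lam, a2]
      ring
    have a4 : xr ((0, 0, Lam m x p - l * xr x, 0, 0,
        fun i => Ai x p.1 i - l * xp x i) : V n) = Lam m x p - l * xr x := rfl
    have a5 : ∀ i, xp ((0, 0, Lam m x p - l * xr x, 0, 0,
        fun i => Ai x p.1 i - l * xp x i) : V n) i = Ai x p.1 i - l * xp x i := fun i => rfl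
    rw [a3, a4] at h1
    simp only [a1, a2, a5] at h1
    have a6 : ∑ i, ((xp p.1 i + cc n i * xb x * A0 x p.1) * 0 -
        (Ai x p.1 i - l * xp x i + cc n i * xb x * 0) * Ai x p.1 i) =
        - ∑ i, (Ai x p.1 i - l * xp x i) * Ai x p.1 i := by
      rw [← Finset.sum_neg_distrib]
      exact Finset.sum_congr rfl fun i _ => by ring
    rw [a6] at h1
    have s2 : ∑ i, (Ai x p.1 i - l * xp x i) * (Ai x p.1 i - l * xp x i) =
        ∑ i, (Ai x p.1 i - l * xp x i) * Ai x p.1 i -
          l * ∑ i, xp x i * (Ai x p.1 i - l * xp x i) := by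
      rw [Finset.mul_sum, ← Finset.sum_sub_distrib]
      exact Finset.sum_congr rfl fun i _ => by ring
    rw [s2, s1]
    linear_combination (-1 : ℝ) * h1 + l * hl + l * l * e3
  have t4 : ∀ i ∈ (Finset.univ : Finset (Fin n)),
      0 ≤ (Ai x p.1 i - l * xp x i) * (Ai x p.1 i - l * xp x i) := fun i _ => mul_self_nonneg _
  have t5 := Finset.sum_nonneg t4
  have t6 : Lam m x p = l * xr x := by
    have := mul_self_nonneg (Lam m x p - l * xr x)
    have h0 : (Lam m x p - l * xr x) * (Lam m x p - l * xr x) = 0 := by linarith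
    have := mul_self_eq_zero.1 h0
    linarith
  have t7 : ∀ i, Ai x p.1 i = l * xp x i := by
    intro i
    have h0 : ∑ i, (Ai x p.1 i - l * xp x i) * (Ai x p.1 i - l * xp x i) = 0 := by
      have := mul_self_nonneg (Lam m x p - l * xr x)
      linarith
    rw [Finset.sum_eq_zero_iff_of_nonneg t4] at h0
    have := mul_self_eq_zero.1 (h0 i (Finset.mem_univ i))
    linarith
  have t8 : alphaV m x p / DD x = l := by
    rw [div_eq_iff hD, alphaV_eq, t6, DD, Sc]
    have : ∑ i, (xp x i - cc n i * xa x) * Ai x p.1 i =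
        l * ∑ i, xp x i * xp x i - l * xa x * ∑ i, cc n i * xp x i := by
      rw [Finset.mul_sum, Finset.mul_sum, ← Finset.sum_sub_distrib]
      refine Finset.sum_congr rfl fun i _ => ?_
      rw [t7]; ring
    rw [this]
    linear_combination l * e3
  rw [t8]
  have u1 : A0 x p.1 = l * (xb x ^ m * xr x / Th m x) := by
    have := tan_A hx hp
    rw [t6] at this
    field_simp
    linear_combination this
  refine Prod.ext (ext_V ?_ ?_ ?_ ?_ ?_ ?_) ?_
  · rw [tan_a hx hp, u1]
    change _ = l * (- xb x * (xb x ^ m * xr x / Th m x))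
    ring
  · rw [tan_b hx hp, u1]
    change _ = l * (xa x * (xb x ^ m * xr x / Th m x))
    ring
  · change _ = l * (xb x * xb x ^ m * Sc x / Th m x)
    have : ∑ i, cc n i * Ai x p.1 i = l * Sc x := by
      rw [Sc, Finset.mul_sum]
      refine Finset.sum_congr rfl fun i _ => ?_
      rw [t7]; ring
    rw [this] at t2
    field_simp
    linear_combination t2
  · intro i
    rw [tan_g hx hp, t7]
    change _ = l * (- xh x i * xp x i)
    ring
  · intro i
    rw [tan_h hx hp, t7]
    change _ = l * (xg x i * xp x i)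
    ring
  · intro i
    have := t1 i
    rw [u1] at this
    change _ = l * (- cc n i * xb x * (xb x ^ m * xr x / Th m x))
    linear_combination this
  · change p.2 = l * (xa x * xr x / Th m x)
    have := tan_c hx hp
    rw [t6] at this
    field_simp
    linear_combination this

lemma abs_le_one_of {a b : ℝ} (h : a * a + b * b = 1) : |a| ≤ 1 ∧ |b| ≤ 1 := by
  constructor <;> rw [abs_le] <;> constructor <;> nlinarith [mul_self_nonneg a, mul_self_nonneg b]

lemma isCompact_level : IsCompact {x : V n | defF x = 0} := by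
  apply Metric.isCompact_of_isClosed_isBounded
  · exact isClosed_singleton.preimage (contDiff_defF.continuous)
  · refine (Metric.isBounded_closedBall (x := (0 : V n)) (r := 1)).subset ?_
    intro x hx
    obtain ⟨e1, e2, e3⟩ := defF_eq_zero.1 hx
    rw [mem_closedBall_zero_iff]
    have hr : |xr x| ≤ 1 := by
      have : 0 ≤ ∑ i, xp x i * xp x i := Finset.sum_nonneg fun i _ => mul_self_nonneg _
      rw [abs_le]
      constructor <;> nlinarith [mul_self_nonneg (xr x)]
    refine norm_prod_le_iff.2 ⟨(abs_le_one_of e1).1, norm_prod_le_iff.2 ⟨(abs_le_one_of e1).2,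
      norm_prod_le_iff.2 ⟨hr, norm_prod_le_iff.2 ⟨?_, norm_prod_le_iff.2 ⟨?_, ?_⟩⟩⟩⟩⟩
    · rw [pi_norm_le_iff_of_nonneg zero_le_one]
      exact fun i => (abs_le_one_of (e2 i)).1
    · rw [pi_norm_le_iff_of_nonneg zero_le_one]
      exact fun i => (abs_le_one_of (e2 i)).2
    · rw [pi_norm_le_iff_of_nonneg zero_le_one]
      intro i
      have := p_sq_le hx i
      change |xp x i| ≤ 1
      rw [abs_le]
      constructor <;> nlinarith [mul_self_nonneg (xp x i)]

lemma surjective_fderiv {x : V n} (hx : defF x = 0) :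
    Function.Surjective (fderiv ℝ (defF : V n → W n) x) := by
  obtain ⟨e1, e2, e3⟩ := defF_eq_zero.1 hx
  rintro ⟨A, B, C⟩
  refine ⟨(A / 2 * xa x, A / 2 * xb x, C / 2 * xr x, fun i => B i / 2 * xg x i,
    fun i => B i / 2 * xh x i, fun i => C / 2 * xp x i), ?_⟩
  rw [fderiv_defF]
  refine Prod.ext ?_ (Prod.ext (funext fun i => ?_) ?_)
  · change 2 * (xa x * (A / 2 * xa x) + xb x * (A / 2 * xb x)) = A
    linear_combination A * e1
  · change 2 * (xg x i * (B i / 2 * xg x i) + xh x i * (B i / 2 * xh x i)) = B i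
    linear_combination B i * e2 i
  · change 2 * (xr x * (C / 2 * xr x) + ∑ i, xp x i * (C / 2 * xp x i)) = C
    have : ∑ i, xp x i * (C / 2 * xp x i) = C / 2 * ∑ i, xp x i * xp x i := by
      rw [Finset.mul_sum]
      exact Finset.sum_congr rfl fun i _ => by ring
    rw [this]
    linear_combination C * e3

lemma tan_iff {m : ℕ} {x : V n} {p : V n × ℝ} : Tan m x p ↔
    (fderiv ℝ (defF : V n → W n) x p.1 = 0 ∧
      fderiv ℝ (xb : V n → ℝ) x p.1 = xb x ^ m * p.2) := by
  rw [fderiv_defF_eq_zero, fderiv_xb]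
  constructor
  · rintro ⟨h1, h2, h3, h4⟩
    exact ⟨⟨h1, h2, h3⟩, h4⟩
  · rintro ⟨⟨h1, h2, h3⟩, h4⟩
    exact ⟨h1, h2, h3, h4⟩

/-- The example: a `b^m`-contact form on `S¹ × T^n × S^n`. -/
def example_ (m n : ℕ) (hn : 1 ≤ n) : BmContactManifold m n (V n) (W n) where
  F := defF
  closed :=
    { smooth := contDiff_defF
      compact := isCompact_level
      regular := fun _ hx => surjective_fderiv hx
      dim := by
        simp only [V, W, Module.finrank_prod, Module.finrank_self, Module.finrank_fin_fun]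
        ring }
  ζ := xb
  defining :=
    { smooth := by unfold xb; fun_prop
      nonempty := by
        refine ⟨(1, 0, 1, fun _ => 1, 0, 0), ?_, rfl⟩
        rw [defF_eq_zero]
        refine ⟨?_, fun i => ?_, ?_⟩
        · simp [xa, xb]
        · simp [xg, xh]
        · simp [xr, xp]
      regular := by
        intro x hx hb
        obtain ⟨e1, e2, e3⟩ := defF_eq_zero.1 hx
        refine ⟨(- xb x, xa x, 0, 0, 0, 0), ?_, ?_⟩
        · rw [fderiv_defF_eq_zero]
          refine ⟨?_, fun i => ?_, ?_⟩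
          · change xa x * (- xb x) + xb x * xa x = 0
            ring
          · simp [xg, xh]
          · simp [xr, xp]
        · rw [fderiv_xb]
          change xa x ≠ 0
          intro h
          rw [h, hb] at e1
          norm_num at e1 }
  f := coefF
  β := beta m
  contact :=
    { f_smooth := contDiff_coefF
      β_smooth := contDiff_beta m
      ne_zero := by
        intro x hx
        refine ⟨XX m x, tan_iff.1 (Tan_XX (m := m) hx), ?_⟩
        have h1 := alpha_XX (m := m) hx
        have h2 := DD_pos hn hx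
        unfold alphaV at h1
        unfold bmForm
        rw [h1]
        exact h2.ne'
      nondegenerate := by
        intro x hx p h1 h3 h4
        have hp : Tan m x p := tan_iff.2 h1
        have h5 := ker_dalpha hn hx hp (dalpha_all hn hx hp
          (fun q hq hq' => h4 q (tan_iff.1 hq) hq'))
        have h6 : alphaV m x p = 0 := h3
        rw [h6, zero_div, zero_smul] at h5
        exact h5 }

variable {m : ℕ}

/-- The Reeb vector field of the example. -/
lemma isReebAt_iff (hn : 1 ≤ n) {x : V n} (hx : defF x = 0) {R : V n × ℝ}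
    (h : (example_ m n hn).IsReebAt x R) : R = (1 / DD x) • XX m x := by
  obtain ⟨h1, h2, h3⟩ := h
  have hp : Tan m x R := tan_iff.2 h1
  have h4 := ker_dalpha hn hx hp (fun q hq => h3 q (tan_iff.1 hq))
  have h5 : alphaV m x R = 1 := h2
  rw [h5] at h4
  exact h4

lemma isPathConnected_level (hn : 1 ≤ n) : IsPathConnected {x : V n | defF x = 0} := by
  have h1 : IsPathConnected ({0}ᶜ : Set (ℝ × (Fin n → ℝ))) := by
    apply isPathConnected_compl_singleton_of_one_lt_rank
    have : Module.finrank ℝ (ℝ × (Fin n → ℝ)) = 1 + n := by simp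
    rw [← Module.finrank_eq_rank, this]
    exact_mod_cast (by omega : 1 < 1 + n)
  have h2 : IsPathConnected ((Set.univ : Set (ℝ × (Fin n → ℝ))) ×ˢ
      ({0}ᶜ : Set (ℝ × (Fin n → ℝ)))) := isPathConnected_univ.prod h1
  let N : ℝ × (Fin n → ℝ) → ℝ := fun y => √(y.1 * y.1 + ∑ i, y.2 i * y.2 i)
  have hN : ∀ y : ℝ × (Fin n → ℝ), y ≠ 0 → 0 < y.1 * y.1 + ∑ i, y.2 i * y.2 i := by
    intro y hy
    have hs : 0 ≤ ∑ i, y.2 i * y.2 i := Finset.sum_nonneg fun i _ => mul_self_nonneg _
    have h0 := mul_self_nonneg y.1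
    rcases (add_nonneg h0 hs).lt_or_eq with h | h
    · exact h
    exfalso
    apply hy
    have e1 : y.1 * y.1 = 0 := by linarith
    have e2 : ∑ i, y.2 i * y.2 i = 0 := by linarith
    rw [Finset.sum_eq_zero_iff_of_nonneg fun i _ => mul_self_nonneg _] at e2
    refine Prod.ext (mul_self_eq_zero.1 e1) (funext fun i => ?_)
    exact mul_self_eq_zero.1 (e2 i (Finset.mem_univ i))
  let Φ : (ℝ × (Fin n → ℝ)) × (ℝ × (Fin n → ℝ)) → V n := fun z =>
    (Real.cos z.1.1, Real.sin z.1.1, z.2.1 / N z.2, fun i => Real.cos (z.1.2 i),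
      fun i => Real.sin (z.1.2 i), fun i => z.2.2 i / N z.2)
  have himg : Φ '' ((Set.univ : Set (ℝ × (Fin n → ℝ))) ×ˢ ({0}ᶜ : Set (ℝ × (Fin n → ℝ)))) =
      {x : V n | defF x = 0} := by
    apply Set.Subset.antisymm
    · rintro _ ⟨z, ⟨-, hz⟩, rfl⟩
      have hpos := hN z.2 hz
      have hNN : N z.2 * N z.2 = z.2.1 * z.2.1 + ∑ i, z.2.2 i * z.2.2 i :=
        Real.mul_self_sqrt hpos.le
      change defF (Φ z) = 0
      rw [defF_eq_zero]
      refine ⟨?_, fun i => ?_, ?_⟩
      · change Real.cos z.1.1 * Real.cos z.1.1 + Real.sin z.1.1 * Real.sin z.1.1 = 1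
        have := Real.sin_sq_add_cos_sq z.1.1
        linarith
      · change Real.cos (z.1.2 i) * Real.cos (z.1.2 i) +
          Real.sin (z.1.2 i) * Real.sin (z.1.2 i) = 1
        have := Real.sin_sq_add_cos_sq (z.1.2 i)
        linarith
      · change z.2.1 / N z.2 * (z.2.1 / N z.2) + ∑ i, z.2.2 i / N z.2 * (z.2.2 i / N z.2) = 1
        have : ∑ i, z.2.2 i / N z.2 * (z.2.2 i / N z.2) =
            (∑ i, z.2.2 i * z.2.2 i) / (N z.2 * N z.2) := by
          rw [Finset.sum_div]
          exact Finset.sum_congr rfl fun i _ => by rw [div_mul_div_comm]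
        rw [this, div_mul_div_comm, ← add_div, hNN, div_self hpos.ne']
    · intro x hx
      obtain ⟨e1, e2, e3⟩ := defF_eq_zero.1 hx
      have hc : ∀ a b : ℝ, a * a + b * b = 1 → ∃ t : ℝ, Real.cos t = a ∧ Real.sin t = b := by
        intro a b hab
        refine ⟨Complex.arg ⟨a, b⟩, ?_, ?_⟩
        · have hz : (⟨a, b⟩ : ℂ) ≠ 0 := by
            intro h
            have h1 := congrArg Complex.re h
            have h2 := congrArg Complex.im h
            simp at h1 h2
            rw [h1, h2] at hab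
            norm_num at hab
          have hnorm : ‖(⟨a, b⟩ : ℂ)‖ = 1 := by
            rw [Complex.norm_eq_sqrt_sq_add_sq]
            rw [show a ^ 2 + b ^ 2 = 1 by linarith [hab, sq a, sq b]]
            exact Real.sqrt_one
          rw [Complex.cos_arg hz, hnorm]
          simp
        · have hnorm : ‖(⟨a, b⟩ : ℂ)‖ = 1 := by
            rw [Complex.norm_eq_sqrt_sq_add_sq]
            rw [show a ^ 2 + b ^ 2 = 1 by linarith [hab, sq a, sq b]]
            exact Real.sqrt_one
          rw [Complex.sin_arg, hnorm]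
          simp
      obtain ⟨t, ht1, ht2⟩ := hc _ _ e1
      choose θ hθ1 hθ2 using fun i => hc _ _ (e2 i)
      have hN1 : N (xr x, fun i => xp x i) = 1 := by
        change √(xr x * xr x + ∑ i, xp x i * xp x i) = 1
        rw [e3, Real.sqrt_one]
      refine ⟨((t, θ), (xr x, fun i => xp x i)), ⟨Set.mem_univ _, ?_⟩, ?_⟩
      · change (xr x, fun i => xp x i) ≠ 0
        intro h
        rw [h] at hN1
        simp [N] at hN1
      · refine ext_V ht1 ht2 ?_ hθ1 hθ2 ?_
        · change xr x / N (xr x, fun i => xp x i) = xr x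
          rw [hN1, div_one]
        · intro i
          change xp x i / N (xr x, fun i => xp x i) = xp x i
          rw [hN1, div_one]
  rw [← himg]
  refine h2.image' ?_
  have hNc : Continuous N := by
    unfold N
    fun_prop
  have hne : ∀ z ∈ ((Set.univ : Set (ℝ × (Fin n → ℝ))) ×ˢ ({0}ᶜ : Set (ℝ × (Fin n → ℝ)))),
      N z.2 ≠ 0 := by
    rintro z ⟨-, hz⟩
    exact (Real.sqrt_pos.2 (hN z.2 hz)).ne'
  refine ContinuousOn.prodMk (by fun_prop) (ContinuousOn.prodMk (by fun_prop)
    (ContinuousOn.prodMk ?_ (ContinuousOn.prodMk (by fun_prop) (ContinuousOn.prodMk (by fun_prop)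
      ?_))))
  · exact ContinuousOn.div (by fun_prop) (by fun_prop) hne
  · refine continuousOn_pi.2 fun i => ?_
    exact ContinuousOn.div (by fun_prop) (by fun_prop) hne

/-! ### There is no singular periodic orbit -/

lemma limit_deriv_top {φ φ' : ℝ → ℝ} {L l : ℝ} (h : ∀ t, HasDerivAt φ (φ' t) t)
    (h1 : Tendsto φ atTop (𝓝 L)) (h2 : Tendsto φ' atTop (𝓝 l)) : l = 0 := by
  have hs : ∀ t : ℝ, ∃ ξ ∈ Set.Ioo t (t + 1), φ' ξ = φ (t + 1) - φ t := by
    intro t
    obtain ⟨ξ, hξ, h3⟩ := exists_hasDerivAt_eq_slope φ φ' (show t < t + 1 by linarith)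
      (fun s _ => (h s).continuousAt.continuousWithinAt) (fun s _ => h s)
    refine ⟨ξ, hξ, ?_⟩
    rw [h3]
    simp
  choose ξ hξ h3 using hs
  have h4 : Tendsto ξ atTop atTop := tendsto_atTop_mono (fun t => (hξ t).1.le) tendsto_id
  have h5 : Tendsto (fun t => φ' (ξ t)) atTop (𝓝 l) := h2.comp h4
  have h6 : Tendsto (fun t => φ' (ξ t)) atTop (𝓝 (L - L)) := by
    simp only [h3]
    exact (h1.comp (tendsto_atTop_add_const_right _ 1 tendsto_id)).sub h1
  rw [sub_self] at h6
  exact tendsto_nhds_unique h5 h6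

lemma limit_deriv_bot {φ φ' : ℝ → ℝ} {L l : ℝ} (h : ∀ t, HasDerivAt φ (φ' t) t)
    (h1 : Tendsto φ atBot (𝓝 L)) (h2 : Tendsto φ' atBot (𝓝 l)) : l = 0 := by
  have h3 : ∀ t, HasDerivAt (fun t => φ (-t)) (- φ' (-t)) t := by
    intro t
    have := (h (-t)).scomp t (hasDerivAt_neg t)
    simpa [Function.comp_def] using this
  have h4 := limit_deriv_top h3 (h1.comp tendsto_neg_atTop_atBot)
    ((h2.comp tendsto_neg_atTop_atBot).neg)
  linarith

lemma no_turn {φ φ' : ℝ → ℝ} {L : ℝ} (h : ∀ t, HasDerivAt φ (φ' t) t) (h0 : ∀ t, φ' t ≠ 0)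
    (h1 : Tendsto φ atTop (𝓝 L)) (h2 : Tendsto φ atBot (𝓝 L)) : False := by
  have hc : Continuous φ := continuous_iff_continuousAt.2 fun t => (h t).continuousAt
  have hinj : Function.Injective φ := by
    intro s t hst
    by_contra hne
    rcases lt_or_gt_of_ne hne with hlt | hlt
    · obtain ⟨ξ, -, hξ⟩ := exists_hasDerivAt_eq_zero hlt hc.continuousOn hst (fun x _ => h x)
      exact h0 ξ hξ
    · obtain ⟨ξ, -, hξ⟩ := exists_hasDerivAt_eq_zero hlt hc.continuousOn hst.symm
        (fun x _ => h x)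
      exact h0 ξ hξ
  rcases hc.strictMono_of_inj hinj with hm | hm
  · have a1 := hm.monotone.ge_of_tendsto h1 1
    have a2 := hm.monotone.le_of_tendsto h2 0
    have a3 := hm (zero_lt_one' ℝ)
    linarith
  · have a1 := hm.antitone.le_of_tendsto h1 1
    have a2 := hm.antitone.ge_of_tendsto h2 0
    have a3 := hm (zero_lt_one' ℝ)
    linarith

/-- the coordinate functional `r` -/
def Lr (n : ℕ) : V n →L[ℝ] ℝ := (ContinuousLinearMap.fst ℝ _ _).comp
  ((ContinuousLinearMap.snd ℝ _ _).comp (ContinuousLinearMap.snd ℝ _ _))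
/-- the coordinate functional `p i` -/
def Lp (n : ℕ) (i : Fin n) : V n →L[ℝ] ℝ :=
  (ContinuousLinearMap.proj i).comp ((ContinuousLinearMap.snd ℝ _ _).comp
    ((ContinuousLinearMap.snd ℝ _ _).comp ((ContinuousLinearMap.snd ℝ _ _).comp
    ((ContinuousLinearMap.snd ℝ _ _).comp (ContinuousLinearMap.snd ℝ _ _)))))

lemma Lr_apply (v : V n) : Lr n v = xr v := rfl
lemma Lp_apply (i : Fin n) (v : V n) : Lp n i v = xp v i := rfl

section orbits

variable (hn : 1 ≤ n) {γ : ℝ → V n} (hγ : (example_ m n hn).IsSingularPeriodicOrbit γ)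

include hγ

lemma orbit_mem (t : ℝ) : defF (γ t) = 0 := hγ.mem t

lemma orbit_deriv (t : ℝ) : HasDerivAt γ ((1 / DD (γ t)) • (XX m (γ t)).1) t := by
  obtain ⟨R, h1, h2⟩ := hγ.integral t
  rw [isReebAt_iff hn (hγ.mem t) h1] at h2
  exact h2

lemma deriv_a (t : ℝ) : HasDerivAt (fun t => xa (γ t))
    (1 / DD (γ t) * (- xb (γ t) * (xb (γ t) ^ m * xr (γ t) / Th m (γ t)))) t := by
  have := (La n).hasFDerivAt.comp_hasDerivAt t (orbit_deriv hn hγ t)
  rw [map_smul] at this
  exact this

lemma deriv_p (i : Fin n) (t : ℝ) : HasDerivAt (fun t => xp (γ t) i)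
    (1 / DD (γ t) * (- cc n i * xb (γ t) * (xb (γ t) ^ m * xr (γ t) / Th m (γ t)))) t := by
  have := (Lp n i).hasFDerivAt.comp_hasDerivAt t (orbit_deriv hn hγ t)
  rw [map_smul] at this
  exact this

lemma deriv_g (i : Fin n) (t : ℝ) : HasDerivAt (fun t => xg (γ t) i)
    (1 / DD (γ t) * (- xh (γ t) i * xp (γ t) i)) t := by
  have := (Lg n i).hasFDerivAt.comp_hasDerivAt t (orbit_deriv hn hγ t)
  rw [map_smul] at this
  exact this

lemma deriv_h (i : Fin n) (t : ℝ) : HasDerivAt (fun t => xh (γ t) i)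
    (1 / DD (γ t) * (xg (γ t) i * xp (γ t) i)) t := by
  have := (Lh n i).hasFDerivAt.comp_hasDerivAt t (orbit_deriv hn hγ t)
  rw [map_smul] at this
  exact this

/-- conserved quantities -/
lemma conserved (i : Fin n) (s t : ℝ) :
    xp (γ s) i - cc n i * xa (γ s) = xp (γ t) i - cc n i * xa (γ t) := by
  have h : ∀ t, HasDerivAt (fun t => xp (γ t) i - cc n i * xa (γ t)) 0 t := by
    intro t
    refine ((deriv_p hn hγ i t).fun_sub ((deriv_a hn hγ t).const_mul (cc n i))).congr_deriv ?_
    ring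
  exact is_const_of_deriv_eq_zero (fun t => (h t).differentiableAt) (fun t => (h t).deriv) s t

omit hγ in
lemma continuous_xa : Continuous (xa : V n → ℝ) := (La n).continuous
omit hγ in
lemma continuous_xg (i : Fin n) : Continuous (fun x : V n => xg x i) := (Lg n i).continuous
omit hγ in
lemma continuous_xh (i : Fin n) : Continuous (fun x : V n => xh x i) := (Lh n i).continuous
omit hγ in
lemma continuous_xp (i : Fin n) : Continuous (fun x : V n => xp x i) := (Lp n i).continuous
omit hγ in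
lemma continuous_DD : Continuous (DD : V n → ℝ) := by
  unfold DD Sc
  exact continuous_const.sub (continuous_xa.mul
    (continuous_finsetSum _ fun i _ => continuous_const.mul (continuous_xp i)))

/-- Limit points of singular periodic orbits are zeros of the Reeb field. -/
lemma limit_p {l : Filter ℝ}
    (hl : ∀ {φ φ' : ℝ → ℝ} {L l' : ℝ}, (∀ t, HasDerivAt φ (φ' t) t) →
      Tendsto φ l (𝓝 L) → Tendsto φ' l (𝓝 l') → l' = 0)
    {P : V n} (hP : defF P = 0) (hlim : Tendsto γ l (𝓝 P)) (i : Fin n) : xp P i = 0 := by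
  have hD := DD_pos hn hP
  have c0 : Tendsto (fun t => 1 / DD (γ t)) l (𝓝 (1 / DD P)) :=
    tendsto_const_nhds.div ((continuous_DD.tendsto P).comp hlim) hD.ne'
  have cg := ((continuous_xg i).tendsto P).comp hlim
  have ch := ((continuous_xh i).tendsto P).comp hlim
  have cp := ((continuous_xp i).tendsto P).comp hlim
  have k1 := hl (deriv_g hn hγ i) cg (c0.mul (ch.neg.mul cp))
  have k2 := hl (deriv_h hn hγ i) ch (c0.mul (cg.mul cp))
  obtain ⟨e1, e2, e3⟩ := defF_eq_zero.1 hP
  have hD' : 1 / DD P ≠ 0 := (one_div_pos.2 hD).ne'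
  have k3 := (mul_eq_zero.1 k1).resolve_left hD'
  have k4 := (mul_eq_zero.1 k2).resolve_left hD'
  linear_combination (-xp P i) * e2 i - xh P i * k3 + xg P i * k4

lemma false_of_orbit : False := by
  obtain ⟨P, ⟨hP, hPb⟩, hlimP⟩ := hγ.limit_bot
  obtain ⟨Q, ⟨hQ, hQb⟩, hlimQ⟩ := hγ.limit_top
  have hP0 := limit_p hn hγ (fun h => limit_deriv_bot h) hP hlimP
  have hQ0 := limit_p hn hγ (fun h => limit_deriv_top h) hQ hlimQ
  have hPb' : xb P = 0 := hPb
  have hQb' : xb Q = 0 := hQb
  have kP : ∀ i t, xp (γ t) i - cc n i * xa (γ t) = - cc n i * xa P := by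
    intro i t
    have h1 : Tendsto (fun s => xp (γ s) i - cc n i * xa (γ s)) atBot
        (𝓝 (xp P i - cc n i * xa P)) :=
      (((continuous_xp i).tendsto P).comp hlimP).sub
        (tendsto_const_nhds.mul ((continuous_xa.tendsto P).comp hlimP))
    have h2 : (fun s => xp (γ s) i - cc n i * xa (γ s)) =
        fun _ => xp (γ t) i - cc n i * xa (γ t) := by
      funext s
      exact conserved hn hγ i s t
    rw [h2] at h1
    have h3 := tendsto_nhds_unique tendsto_const_nhds h1
    rw [h3, hP0 i]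
    ring
  have kQ : ∀ i t, xp (γ t) i - cc n i * xa (γ t) = - cc n i * xa Q := by
    intro i t
    have h1 : Tendsto (fun s => xp (γ s) i - cc n i * xa (γ s)) atTop
        (𝓝 (xp Q i - cc n i * xa Q)) :=
      (((continuous_xp i).tendsto Q).comp hlimQ).sub
        (tendsto_const_nhds.mul ((continuous_xa.tendsto Q).comp hlimQ))
    have h2 : (fun s => xp (γ s) i - cc n i * xa (γ s)) =
        fun _ => xp (γ t) i - cc n i * xa (γ t) := by
      funext s
      exact conserved hn hγ i s t
    rw [h2] at h1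
    have h3 := tendsto_nhds_unique tendsto_const_nhds h1
    rw [h3, hQ0 i]
    ring
  have hPQ : xa P = xa Q := by
    have h1 := kP ⟨0, hn⟩ 0
    have h2 := kQ ⟨0, hn⟩ 0
    have h3 : cc n ⟨0, hn⟩ = 1 / 4 := by simp [cc]
    rw [h3] at h1 h2
    linarith
  -- the coordinate `r` never vanishes
  have hr : ∀ t, xr (γ t) ≠ 0 := by
    intro t h
    obtain ⟨-, -, e3⟩ := defF_eq_zero.1 (hγ.mem t)
    rw [h] at e3
    have h1 : ∀ i, xp (γ t) i * xp (γ t) i =
        cc n i * ((xa (γ t) - xa P) ^ 2 * cc n i) := by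
      intro i
      have : xp (γ t) i = cc n i * (xa (γ t) - xa P) := by linear_combination kP i t
      rw [this]; ring
    have h2 : ∑ i, xp (γ t) i * xp (γ t) i = (xa (γ t) - xa P) ^ 2 / 16 := by
      simp only [h1]
      rw [cc_sum hn]
      have h3 : cc n ⟨0, hn⟩ = 1 / 4 := by simp [cc]
      rw [h3]; ring
    rw [h2] at e3
    have a1 := abs_xa_le (hγ.mem t)
    have a2 := abs_xa_le hP
    rw [abs_le] at a1 a2
    nlinarith
  have hb : ∀ t, xb (γ t) ≠ 0 := fun t h => hγ.notMem t ⟨hγ.mem t, h⟩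
  have ha1 : Tendsto (fun t => xa (γ t)) atTop (𝓝 (xa Q)) := (continuous_xa.tendsto Q).comp hlimQ
  have ha2 : Tendsto (fun t => xa (γ t)) atBot (𝓝 (xa Q)) := by
    rw [← hPQ]
    exact (continuous_xa.tendsto P).comp hlimP
  refine no_turn (deriv_a hn hγ) (fun t => ?_) ha1 ha2
  have h1 := (DD_pos hn (hγ.mem t)).ne'
  have h2 := (Th_pos (m := m) (hγ.mem t)).ne'
  have h3 := hb t
  have h4 := hr t
  have h5 : xb (γ t) ^ m ≠ 0 := pow_ne_zero _ h3
  exact mul_ne_zero (one_div_ne_zero h1) (mul_ne_zero (neg_ne_zero.2 h3)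
    (div_ne_zero (mul_ne_zero h5 h4) h2))

end orbits

/-- **Main result.** For every `m ≥ 1` and every `n ≥ 1` there is a closed connected
`b^m`-contact manifold of dimension `2 n + 1` which has no singular periodic orbit. -/
theorem result (m n : ℕ) (_hm : 1 ≤ m) (hn : 1 ≤ n) :
    ∃ (E G : Type) (_ : NormedAddCommGroup E) (_ : NormedSpace ℝ E) (_ : FiniteDimensional ℝ E)
      (_ : NormedAddCommGroup G) (_ : NormedSpace ℝ G) (_ : FiniteDimensional ℝ G)
      (M : BmContactManifold m n E G),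
      IsPathConnected M.carrier ∧ ∀ γ, ¬ M.IsSingularPeriodicOrbit γ :=
  ⟨V n, W n, inferInstance, inferInstance, inferInstance, inferInstance, inferInstance,
    inferInstance, example_ m n hn, isPathConnected_level hn, fun _ hγ => false_of_orbit hn hγ⟩

end

end Pool.Agent.Results.MP_4878e4_gt.NoSingularOrbit
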